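import Pool.Agent.MP_d5eec5_gt.H77.GBasic

/-! Turning points of opposite kinds on one edge force a crossing. -/

set_option autoImplicit false

namespace Pool.Agent.MP_d5eec5_gt.H77

open Pool.Agent.MP_d5eec5_gt.H48 Finset

theorem sz_cross {x y z : Fin 3} (hxy : x ≠ y) (hxz : x ≠ z) (hyz : y ≠ z) {a b c a' b' c' : ℚ}
    (ha : (y.val : ℚ) < a ∧ a < y.val + 1) (hb : (x.val : ℚ) < b ∧ b < x.val + 1)
    (hc : (z.val : ℚ) < c ∧ c < z.val + 1) (ha' : (y.val : ℚ) < a' ∧ a' < y.val + 1)
    (hb' : (x.val : ℚ) < b' ∧ b' < x.val + 1) (hc' : (z.val : ℚ) < c' ∧ c' < z.val + 1)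
    (h : b ≠ b') : (c1 a b b' c' = 1 ∧ c1 b' c' a b = 1) ∨ (c1 b c a' b' = 1 ∧ c1 a' b' b c = 1) := by
  simp only [c1, btw_iff]
  fin_cases x <;> fin_cases y <;> fin_cases z <;> simp at hxy hxz hyz ha hb hc ha' hb' hc' <;> grind

/-- The chords `i + 1 + s` and `j + 1 + t` have exactly one common letter. -/
structure SzG (g : ℕ → Option (Fin 3)) (i j s t : ℕ) : Prop where
  hs : s ≤ 1
  ht : t ≤ 1
  e : g (i + 1) = g (j + 1)
  n : g (i + 2 * s) ≠ g (j + 2 * t)
  n1 : g (i + 2 * s) ≠ g (i + 1)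
  n2 : g (j + 2 * t) ≠ g (j + 1)

theorem SzG.symm {g : ℕ → Option (Fin 3)} {i j s t : ℕ} (h : SzG g i j s t) : SzG g j i t s :=
  ⟨h.ht, h.hs, h.e.symm, h.n.symm, h.n2, h.n1⟩

theorem SzG.uniq {g : ℕ → Option (Fin 3)} {i j s t i' j' s' t' : ℕ} (h : SzG g i j s t)
    (h' : SzG g i' j' s' t') (e1 : i + s = i' + s') (e2 : j + t = j' + t') : i = i' ∧ j = j' := by
  have := h.hs; have := h.ht; have := h'.hs; have := h'.ht
  by_cases a : i = i' <;> by_cases b : j = j'
  · exact ⟨a, b⟩
  · refine absurd ?_ h.n2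
    rw [show j + 2 * t = j' + 1 by omega, ← h'.e, ← a, h.e]
  · refine absurd ?_ h.n1
    rw [show i + 2 * s = i' + 1 by omega, h'.e, ← b, h.e]
  · refine absurd ?_ h.n
    rw [show i + 2 * s = i' + 1 by omega, show j + 2 * t = j' + 1 by omega, h'.e]

theorem sz_pair {τ η : Fin 3} {w : Wd} {p : ℕ → ℚ} (hw : w.IsChain (· ≠ ·)) (hp : Fit τ η w p)
    {i j : ℕ} (h : Opp w i j) : ∃ s t, SzG (fun k => w[k]?) i j s t ∧ (i + s) % 2 = (j + t) % 2 ∧
      c1 (p (i + s + 1)) (p (i + s + 2)) (p (j + t + 1)) (p (j + t + 2)) = 1 ∧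
      c1 (p (j + t + 1)) (p (j + t + 2)) (p (i + s + 1)) (p (i + s + 2)) = 1 := by
  obtain ⟨hi, hj, e, ni, nj, hpar⟩ := h
  have ch := List.isChain_iff_getElem.1 hw
  have c0 := ch i (by omega)
  have c1' := ch (i + 1) (by omega)
  have d0 := ch j (by omega)
  have d1 := ch (j + 1) (by omega)
  have hij : i ≠ j := by
    rintro rfl
    have := hpar.1 rfl
    omega
  have hne := hp.ne (a := i + 1 + 1) (b := j + 1 + 1) (by omega) (by omega) (by omega)
  have g0 := List.getElem?_eq_getElem (show i < w.length by omega)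
  have g1 := List.getElem?_eq_getElem (show i + 1 < w.length by omega)
  have g2 := List.getElem?_eq_getElem (show i + 2 < w.length by omega)
  have f0 := List.getElem?_eq_getElem (show j < w.length by omega)
  have f1 := List.getElem?_eq_getElem (show j + 1 < w.length by omega)
  have f2 := List.getElem?_eq_getElem (show j + 2 < w.length by omega)
  change w[i + 1] ≠ w[i + 2] at c1'
  change w[j + 1] ≠ w[j + 2] at d1
  generalize w[i] = y at *
  generalize w[i + 1] = x at *
  generalize w[i + 2] = z at *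
  generalize w[j] = y' at *
  generalize w[j + 1] = x' at *
  generalize w[j + 2] = z' at *
  rw [g1, f1, Option.some_inj] at e
  subst e
  rw [g0, g2, Ne, Option.some_inj] at ni
  rw [f0, f2, Ne, Option.some_inj] at nj
  rw [g0, f0, Option.some_inj] at hpar
  by_cases hy : y = y'
  · subst hy
    obtain rfl : z = z' := by omega
    have := hpar.1 rfl
    rcases sz_cross c0.symm c1' ni (hp.mem _ _ g0) (hp.mem _ _ g1) (hp.mem _ _ g2) (hp.mem _ _ f0)
      (hp.mem _ _ f1) (hp.mem _ _ f2) hne with h | h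
    · exact ⟨0, 1, ⟨by omega, by omega, by simp [*], by simp [g0, f2, ni], by simp [*],
        by simp [f1, f2, d1.symm]⟩, by omega, h⟩
    · exact ⟨1, 0, ⟨by omega, by omega, by simp [*], by simp [g2, f0, Ne.symm ni],
        by simp [g1, g2, c1'.symm], by simp [*]⟩, by omega, h⟩
  · obtain rfl : z = y' := by omega
    obtain rfl : y = z' := by omega
    have := mt hpar.2 hy
    rcases sz_cross c0.symm c1' ni (hp.mem _ _ g0) (hp.mem _ _ g1) (hp.mem _ _ g2) (hp.mem _ _ f2)
      (hp.mem _ _ f1) (hp.mem _ _ f0) hne with h | h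
    · rw [c1_swap_right, c1_swap_left (p (j + 1 + 1))] at h
      exact ⟨0, 0, ⟨by omega, by omega, by simp [*], by simp [*], by simp [*], by simp [*]⟩,
        by omega, h⟩
    · rw [c1_swap_right, c1_swap_left (p (j + 2 + 1))] at h
      exact ⟨1, 1, ⟨by omega, by omega, by simp [*], by simp [g2, f2, Ne.symm ni],
        by simp [g1, g2, c1'.symm], by simp [f1, f2, d1.symm]⟩, by omega, h⟩

theorem sz : StmtSZ := by
  intro τ η w p A B hw hp h
  choose! s t hG hpar h1 h2 using fun (q : ℕ × ℕ) (hq : q ∈ A ×ˢ B) =>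
    sz_pair hw hp (h q.1 (mem_product.1 hq).1 q.2 (mem_product.1 hq).2)
  have hne : ∀ q ∈ A ×ˢ B, q.1 + s q ≠ q.2 + t q := fun q hq e => by
    have := h1 q hq
    rw [e] at this
    simp [c1, btw_iff] at this
  let f : ℕ × ℕ → (_ : ℕ) × ℕ := fun q =>
    ⟨max (q.1 + s q) (q.2 + t q) + 1, min (q.1 + s q) (q.2 + t q) + 1⟩
  have hf : Set.InjOn f (A ×ˢ B : Finset (ℕ × ℕ)) := by
    intro q hq q' hq' e
    have e1 := congrArg Sigma.fst e
    have e2 := congrArg (fun r : (_ : ℕ) × ℕ => r.2) e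
    simp only [f] at e1 e2
    by_cases c : q.1 + s q = q'.1 + s q'
    · have := (hG q hq).uniq (hG q' hq') c (by omega)
      exact Prod.ext this.1 this.2
    · have := (hG q hq).uniq (hG q' hq').symm (by omega) (by omega)
      have h3 := (h q.1 (mem_product.1 hq).1 q'.2 (mem_product.1 hq').2).2.2.2.2.2.1
        (by rw [this.1])
      omega
  rw [← card_product, ← card_image_of_injOn hf, card_eq_sum_ones, X, sum_sigma']
  refine (sum_le_sum fun r hr => ?_).trans (sum_le_sum_of_subset fun r hr => ?_)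
  · obtain ⟨q, hq, rfl⟩ := mem_image.1 hr
    have := hpar q hq
    simp only [f]
    rw [if_pos (by omega)]
    rcases le_total (q.1 + s q) (q.2 + t q) with c | c
    · rw [max_eq_right c, min_eq_left c]
      exact (h1 q hq).ge
    · rw [max_eq_left c, min_eq_right c]
      exact (h2 q hq).ge
  · obtain ⟨q, hq, rfl⟩ := mem_image.1 hr
    have a1 := hne q hq
    have a2 := (hG q hq).hs
    have a3 := (hG q hq).ht
    have a4 := h q.1 (mem_product.1 hq).1 q.2 (mem_product.1 hq).2
    have a5 := a4.1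
    have a6 := a4.2.1
    simp only [f, mem_sigma, mem_range]
    omega

end Pool.Agent.MP_d5eec5_gt.H77
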