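import Pool.Agent.MP_d5eec5_gt.H77.KBot

/-! Line diagrams with the same cutting word, and the letters next to the endpoints. -/

set_option autoImplicit false

namespace Pool.Agent.MP_d5eec5_gt.H77

open Pool.Agent.MP_d5eec5_gt.H48 Kind

theorem wm1_perm {R : List ℕ → List ℕ → Prop} (h1 : ∀ l, R l l)
    (h2 : ∀ a b c, R a b → R b c → R a c)
    (h3 : ∀ u v x y, R (u ++ y :: x :: v) (u ++ x :: y :: v)) {l l' : List ℕ} (h : l.Perm l') :
    ∀ u, R (u ++ l) (u ++ l') := by
  induction h with
  | nil => exact fun u => h1 _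
  | cons x _ ih => intro u; simpa using ih (u ++ [x])
  | swap x y l => exact fun u => h3 u l x y
  | trans _ _ i1 i2 => exact fun u => h2 _ _ _ (i1 u) (i2 u)

theorem wm1_swap (N1 : StmtN1) {l₁ l₂ t₁ t₂ : List ℕ} {x y x' y' a b : ℕ}
    (hl : Dbl (l₁ ++ y :: x :: l₂)) (ht : Dbl (t₁ ++ y' :: x' :: t₂))
    (e : t₁.length + t₂.length = l₁.length + l₂.length + 2)
    (hc : FE (l₁.length + l₂.length + 2) ((l₁.length, cr true) :: ends a b)
      (ends a b ++ [(t₁.length, cr true)])) :
    FE 0 (bot (l₁ ++ y :: x :: l₂) ++ ends a b ++ top (t₁ ++ y' :: x' :: t₂))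
      (bot (l₁ ++ x :: y :: l₂) ++ ends a b ++ top (t₁ ++ x' :: y' :: t₂)) := by
  have c1 : cnt 0 (bot (l₁ ++ x :: y :: l₂)) = l₁.length + l₂.length + 2 := by
    rw [bot_cnt hl.swap]; simp; omega
  have s1 := ((N1 l₁ l₂ x y hl.swap).symm.right (ends a b)).right (top (t₁ ++ y' :: x' :: t₂))
  have s2 := FE.ctx (bot (l₁ ++ x :: y :: l₂)) (top (t₁ ++ y' :: x' :: t₂)) (c1 ▸ hc)
  have s3 := FE.left (n := 0) (bot (l₁ ++ x :: y :: l₂) ++ ends a b)
    (l := (t₁.length, cr true) :: top (t₁ ++ y' :: x' :: t₂)) (r := top (t₁ ++ x' :: y' :: t₂)) (by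
      have := top_step ht.swap (N1 t₁ t₂ y' x' ht)
      rw [cnt_append, c1, ends_cnt, ← e]
      simpa [mirK, Nat.add_assoc] using this)
  refine s1.trans (FE.trans ?_ s3)
  simpa using s2

theorem wm1_ca {n i a b : ℕ} (h : i + 2 ≤ a) (h' : a + b ≤ n) :
    FE n ((i, cr true) :: ends a b) (ends a b ++ [(i, cr true)]) :=
  (FE.right [(a + 1 + b, up true)] (l := [(i, cr true), (a, up false)])
    (r := [(a, up false), (i, cr true)])
    (fe_far' (by simpa [win] using h) (by simp [win]; omega) (by simp [win, wout])).symm).trans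
  (FE.cons _ (fe_far' (by simp [win]; omega) (by simp [win, wout]; omega)
    (by simp [win, wout])).symm)

theorem wm1_cb {n i a b : ℕ} (h : a ≤ i) (h1 : i + 2 ≤ a + b) (h' : a + b ≤ n) :
    FE n ((i, cr true) :: ends a b) (ends a b ++ [(i + 1, cr true)]) :=
  (FE.right [(a + 1 + b, up true)] (l := [(i, cr true), (a, up false)])
    (r := [(a, up false), (i + 1, cr true)])
    (fe_far' (by simpa [win] using h) (by simp [win]; omega) (by simp [win, wout]))).trans
  (FE.cons _ (fe_far' (by simp [win]; omega) (by simp [win, wout]; omega)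
    (by simp [win, wout])).symm)

theorem wm1_cc {n i a b : ℕ} (h : a + b ≤ i) (h' : i + 2 ≤ n) :
    FE n ((i, cr true) :: ends a b) (ends a b ++ [(i + 2, cr true)]) :=
  (FE.right [(a + 1 + b, up true)] (l := [(i, cr true), (a, up false)])
    (r := [(a, up false), (i + 1, cr true)])
    (fe_far' (by simp [win]; omega) (by simp [win]; omega) (by simp [win, wout]))).trans
  (FE.cons _ (fe_far' (by simp [win]; omega) (by simp [win, wout]; omega)
    (by simp [win, wout])))

theorem wm1_lab {L L' : Line} (h : Lab L) (e : L.all.Perm L'.all) : Lab L' := by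
  have : L'.m = L.m := e.length_eq.symm
  exact ⟨this ▸ h.1, this ▸ e.symm.trans h.2⟩

theorem wm1_of_perm (N1 : StmtN1) {a a' b b' c c' : List ℕ} (h : Lab ⟨a, b, c⟩) (ha : a.Perm a')
    (hb : b.Perm b') (hc : c.Perm c') : FE 0 (LD ⟨a, b, c⟩) (LD ⟨a', b', c'⟩) := by
  have gen : ∀ F : List ℕ → Line, (∀ u v x y, Lab (F (u ++ y :: x :: v)) →
      Lab (F (u ++ x :: y :: v)) ∧ FE 0 (LD (F (u ++ y :: x :: v))) (LD (F (u ++ x :: y :: v)))) →
      ∀ l l', l.Perm l' → Lab (F l) → Lab (F l') ∧ FE 0 (LD (F l)) (LD (F l')) :=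
    fun F hF l l' e => wm1_perm (R := fun l l' => Lab (F l) → Lab (F l') ∧
      FE 0 (LD (F l)) (LD (F l'))) (fun l h => ⟨h, FE.refl _ _⟩)
      (fun _ _ _ h1 h2 h => ⟨(h2 (h1 h).1).1, (h1 h).2.trans (h2 (h1 h).1).2⟩) hF e []
  obtain ⟨h1, e1⟩ := gen (fun l => ⟨l, b, c⟩) (fun u v x y h => by
    refine ⟨wm1_lab h (((List.Perm.swap _ _ _).append_left _).append_right _ |>.append_right _), ?_⟩
    have d1 := h.dbl_bot
    have d2 := h.dbl_top
    simp only [LD, botIds, topIds, Line.m, Line.all, List.map_append, List.map_cons,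
      List.append_assoc, List.cons_append, List.length_append, List.length_cons] at d1 d2 ⊢
    rw [← List.append_assoc, ← List.append_assoc (bot _)]
    refine wm1_swap N1 d1 d2 (by simp; omega) ?_
    simp only [List.length_map, List.length_append]
    exact wm1_ca (by omega) (by omega)) a a' ha h
  obtain ⟨h2, e2⟩ := gen (fun l => ⟨a', l, c⟩) (fun u v x y h => by
    refine ⟨wm1_lab h (((List.Perm.swap _ _ _).append_left _).append_left _ |>.append_right _), ?_⟩
    have d1 := h.dbl_bot
    have d2 := h.dbl_top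
    simp only [LD, botIds, topIds, Line.m, Line.all, List.map_append, List.map_cons,
      List.append_assoc, List.cons_append, List.length_append, List.length_cons] at d1 d2 ⊢
    rw [← List.append_assoc, ← List.append_assoc (bot _)]
    simp only [← List.cons_append, ← List.append_assoc (List.map _ a')] at d1 d2 ⊢
    simp only [List.cons_append] at d1 d2 ⊢
    refine wm1_swap N1 d1 d2 (by simp; omega) ?_
    simp only [List.length_map, List.length_append, List.length_cons, ← Nat.add_assoc]
    exact wm1_cb (by omega) (by omega) (by omega)) b b' hb h1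
  obtain ⟨-, e3⟩ := gen (fun l => ⟨a', b', l⟩) (fun u v x y h => by
    refine ⟨wm1_lab h (((List.Perm.swap _ _ _).append_left _).append_left _), ?_⟩
    have d1 := h.dbl_bot
    have d2 := h.dbl_top
    simp only [LD, botIds, topIds, Line.m, Line.all, List.map_append, List.map_cons,
      List.length_append, List.length_cons] at d1 d2 ⊢
    simp only [← List.cons_append, ← List.append_assoc] at d1 d2 ⊢
    refine wm1_swap N1 d1 d2 (by simp; omega) ?_
    simp only [List.length_map, List.length_append, List.length_cons]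
    rw [show a'.length + (b'.length + 1) + (u.length + 1) = a'.length + b'.length + u.length + 2 by
      omega]
    exact wm1_cc (by omega) (by omega)) c c' hc h2
  exact e1.trans (e2.trans e3)

/-- The letter of a point. -/
def wm1_let (L : Line) (x : ℕ) : Fin 3 := if x ∈ L.a then 0 else if x ∈ L.b then 1 else 2

theorem wm1_word (L : Line) : wordOf L = (List.range L.m).map fun i => wm1_let L (i + 1) := rfl

theorem wm1_nodup {L : Line} (h : Lab L) : L.all.Nodup := h.2.nodup_iff.2 List.nodup_range'

theorem wm1_mem {L : Line} (h : Lab L) (x : ℕ) : x ∈ L.all ↔ 1 ≤ x ∧ x ≤ L.m := by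
  rw [h.2.mem_iff, List.mem_range'_1]
  omega

theorem wm1_iff {L : Line} (h : Lab L) (x : ℕ) :
    (x ∈ L.a ↔ x ∈ L.all ∧ wm1_let L x = 0) ∧ (x ∈ L.b ↔ x ∈ L.all ∧ wm1_let L x = 1) ∧
      (x ∈ L.c ↔ x ∈ L.all ∧ wm1_let L x = 2) := by
  have := wm1_nodup h
  simp only [Line.all, List.nodup_append, List.mem_append] at this
  obtain ⟨⟨-, -, h1⟩, -, h2⟩ := this
  have h3 := fun p q => h1 x p x q rfl
  have h4 := fun p q => h2 x p x q rfl
  simp only [wm1_let, Line.all, List.mem_append]
  by_cases a : x ∈ L.a <;> by_cases b : x ∈ L.b <;> by_cases c : x ∈ L.c <;> simp_all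

theorem wm1_of : StmtN1 → StmtWM1 := by
  intro N1 L L' h h' e
  have em : L.m = L'.m := by rw [← wordOf_length, e, wordOf_length]
  rw [wm1_word, wm1_word, ← em, List.map_inj_left] at e
  have key : ∀ x (y : Fin 3), x ∈ L.all ∧ wm1_let L x = y ↔ x ∈ L'.all ∧ wm1_let L' x = y := by
    intro x y
    rw [wm1_mem h, wm1_mem h', ← em]
    refine and_congr_right fun hx => ?_
    obtain ⟨i, rfl⟩ : ∃ i, x = i + 1 := ⟨x - 1, by omega⟩
    rw [e i (List.mem_range.2 (by omega))]
  have n := wm1_nodup h
  have n' := wm1_nodup h'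
  exact wm1_of_perm N1 h
    ((List.perm_ext_iff_of_nodup n.of_append_left.of_append_left
      n'.of_append_left.of_append_left).2 fun x => by
        rw [(wm1_iff h x).1, (wm1_iff h' x).1, key])
    ((List.perm_ext_iff_of_nodup n.of_append_left.of_append_right
      n'.of_append_left.of_append_right).2 fun x => by
        rw [(wm1_iff h x).2.1, (wm1_iff h' x).2.1, key])
    ((List.perm_ext_iff_of_nodup n.of_append_right n'.of_append_right).2 fun x => by
        rw [(wm1_iff h x).2.2, (wm1_iff h' x).2.2, key])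

theorem wm3_cap (N2 : StmtN2) {l t₁ t₂ : List ℕ} {z : ℕ} {E E' : List Gen} (hl : Dbl l)
    (ht : Dbl (t₁ ++ z :: z :: t₂)) (e : cnt l.length E = t₁.length + t₂.length + 2)
    (e' : cnt l.length E' = t₁.length + t₂.length + 2)
    (hc : FE l.length (E ++ [(t₁.length, cap)]) (E' ++ [(t₁.length, cap)])) :
    FE 0 (bot l ++ E ++ top (t₁ ++ z :: z :: t₂)) (bot l ++ E' ++ top (t₁ ++ z :: z :: t₂)) := by
  have s0 : FE (t₁.length + t₂.length + 2) ((t₁.length, cap) :: top (t₁ ++ t₂))
      (top (t₁ ++ z :: z :: t₂)) := by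
    simpa [mirK, Nat.add_assoc] using
      top_step ht (N2 t₁ t₂ z (dbl_cup.1 ht).1 (dbl_cup.1 ht).2)
  have s1 := FE.left (n := 0) (bot l ++ E) (by rw [cnt_append, bot_cnt hl, e]; exact s0)
  have s2 := FE.left (n := 0) (bot l ++ E') (by rw [cnt_append, bot_cnt hl, e']; exact s0)
  have s3 := FE.ctx (n := 0) (bot l) (top (t₁ ++ t₂)) (by rw [bot_cnt hl]; exact hc)
  refine s1.symm.trans (FE.trans ?_ s2)
  simpa using s3

theorem wm3_of : StmtN2 → StmtWM1 → StmtWM3 := by
  intro N2 W
  refine ⟨fun L L' v h h' e e' => ?_, fun L L' v h h' e e' => ?_⟩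
  · have em : L.m = v.length + 1 := by rw [← wordOf_length, e]; rfl
    have e0 := e
    rw [wm1_word, em, List.range_succ_eq_map, List.map_cons, List.cons.injEq, List.map_map] at e
    have h1 : 1 ∈ L.a := (wm1_iff h 1).1.2 ⟨(wm1_mem h 1).2 (by omega), e.1⟩
    have n := (wm1_nodup h).of_append_left.of_append_left
    have p1 : L.a.Perm (L.a.erase 1 ++ [1]) :=
      (List.perm_cons_erase h1).trans (List.perm_append_singleton _ _).symm
    have g1 : Lab ⟨L.a.erase 1 ++ [1], L.b, L.c⟩ :=
      wm1_lab h ((p1.append_right _).append_right _)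
    have ea : (⟨L.a.erase 1 ++ [1], L.b, L.c⟩ : Line).all =
        (⟨L.a.erase 1, 1 :: L.b, L.c⟩ : Line).all := by simp [Line.all]
    have g2 : Lab ⟨L.a.erase 1, 1 :: L.b, L.c⟩ := wm1_lab g1 (ea ▸ List.Perm.refl _)
    have m1 : (⟨L.a.erase 1 ++ [1], L.b, L.c⟩ : Line).m = L.m :=
      ((p1.append_right _).append_right _).length_eq.symm
    have m2 : (⟨L.a.erase 1, 1 :: L.b, L.c⟩ : Line).m = L.m := by
      rw [← m1, Line.m, Line.m, ea]
    refine (W L _ h g1 ?_).trans (FE.trans ?_ (W _ L' g2 h' ?_))
    · rw [wm1_word, wm1_word, m1]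
      exact List.map_congr_left fun i _ => by simp only [wm1_let, p1.mem_iff]
    · have d1 := g2.dbl_bot
      have d2 := g2.dbl_top
      have l1 := botIds_length ⟨L.a.erase 1, 1 :: L.b, L.c⟩
      have l2 := Line.m_eq ⟨L.a.erase 1, 1 :: L.b, L.c⟩
      unfold LD
      rw [show botIds ⟨L.a.erase 1 ++ [1], L.b, L.c⟩ = botIds ⟨L.a.erase 1, 1 :: L.b, L.c⟩ by
        rw [botIds, botIds, ea]]
      simp only [topIds, m1, m2, List.map_append, List.map_cons, List.append_assoc,
        List.cons_append, List.nil_append, List.length_append, List.length_cons, List.length_nil,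
        Nat.reduceDiv] at d2 l1 l2 ⊢
      rw [← List.append_assoc, ← List.append_assoc (bot _)]
      refine wm3_cap N2 d1 d2 (by simp [ends_cnt, l1]; omega) (by simp [ends_cnt, l1]; omega) ?_
      rw [l1, List.length_map]
      generalize (L.a.erase 1).length = k at *
      have f : FE (L.m + 1) [(k + 1 + (L.b.length + 1), up true), (k, cap)]
          [(k, cap), (k + L.b.length, up true)] :=
        fe_far' (by simp [win]; omega) (by simp [win]; omega) (by simp [win, wout]; omega)
      simp only [ends, Nat.zero_add, List.cons_append, List.nil_append]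
      rw [show k + 1 + 1 + L.b.length = k + 1 + (L.b.length + 1) by omega]
      exact (FE.cons (k + 1, up false) f).trans ((FE.right [(k + L.b.length, up true)]
        ((fe_endr (n := L.m) (by omega) false).trans
          (fe_endl (n := L.m) (by omega) false).symm)).trans
          (FE.cons (k, up false) f).symm)
    · rw [e', wm1_word, m2, em, List.range_succ_eq_map, List.map_cons, List.map_map]
      congr 1
      · simp [wm1_let, n.mem_erase_iff]
      · exact (List.map_congr_left fun i _ => by simp [wm1_let, n.mem_erase_iff]).trans e.2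
  · have em : L.m = v.length + 1 := by rw [← wordOf_length, e]; simp
    rw [wm1_word, em, List.range_succ, List.map_append, List.map_singleton,
      List.append_singleton_inj, ← em] at e
    have h1 : L.m ∈ L.b := (wm1_iff h _).2.1.2 ⟨(wm1_mem h _).2 (by omega), e.2⟩
    have h0 : L.m ∉ L.a := fun hh => by
      have := ((wm1_iff h _).1.1 hh).2
      rw [e.2] at this
      exact absurd this (by decide)
    have n := (wm1_nodup h).of_append_left.of_append_right
    have p1 : L.b.Perm (L.b.erase L.m ++ [L.m]) :=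
      (List.perm_cons_erase h1).trans (List.perm_append_singleton _ _).symm
    have g1 : Lab ⟨L.a, L.b.erase L.m ++ [L.m], L.c⟩ :=
      wm1_lab h ((p1.append_left _).append_right _)
    have ea : (⟨L.a, L.b.erase L.m ++ [L.m], L.c⟩ : Line).all =
        (⟨L.a, L.b.erase L.m, L.m :: L.c⟩ : Line).all := by simp [Line.all]
    have g2 : Lab ⟨L.a, L.b.erase L.m, L.m :: L.c⟩ := wm1_lab g1 (ea ▸ List.Perm.refl _)
    have m1 : (⟨L.a, L.b.erase L.m ++ [L.m], L.c⟩ : Line).m = L.m :=
      ((p1.append_left _).append_right _).length_eq.symm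
    have m2 : (⟨L.a, L.b.erase L.m, L.m :: L.c⟩ : Line).m = L.m :=
      (congrArg List.length ea).symm.trans m1
    refine (W L _ h g1 ?_).trans (FE.trans ?_ (W _ L' g2 h' ?_))
    · rw [wm1_word, wm1_word, m1]
      exact List.map_congr_left fun i _ => by simp only [wm1_let, ← p1.mem_iff]
    · have d1 := g2.dbl_bot
      have d2 := g2.dbl_top
      have l1 := botIds_length ⟨L.a, L.b.erase L.m, L.m :: L.c⟩
      have l2 := Line.m_eq ⟨L.a, L.b.erase L.m, L.m :: L.c⟩
      have ev : (L.m + 1) / 2 = L.m / 2 := by obtain ⟨r, hr⟩ := h.1; omega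
      unfold LD
      rw [show botIds ⟨L.a, L.b.erase L.m ++ [L.m], L.c⟩ =
        botIds ⟨L.a, L.b.erase L.m, L.m :: L.c⟩ by rw [botIds, botIds, ea]]
      simp only [topIds, m1, m2, List.map_append, List.map_cons, ev, List.map_nil,
        List.length_append, List.length_cons, List.length_nil] at d2 l1 l2 ⊢
      rw [← List.cons_append, ← List.append_assoc (List.map _ L.a), List.append_assoc _ [_],
        List.singleton_append]
      refine wm3_cap N2 d1 d2 (by simp [ends_cnt, l1]; omega) (by simp [ends_cnt, l1]; omega) ?_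
      rw [l1]
      simp only [ends, Nat.zero_add, List.cons_append, List.nil_append, List.length_append,
        List.length_cons, List.length_map]
      generalize (L.b.erase L.m).length = k at *
      rw [show L.a.length + 1 + (k + 1) = L.a.length + (k + 1) + 1 by omega,
        show L.a.length + 1 + k = L.a.length + (k + 1) by omega]
      exact FE.cons _ ((fe_endr (by simp [win, wout]; omega) true).trans
        (fe_endl (by simp [win, wout]; omega) true).symm)
    · rw [e', wm1_word, m2]
      conv_lhs => rw [em, List.range_succ, List.map_append, List.map_singleton, ← em]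
      congr 1
      · exact (List.map_congr_left fun i hi => by
          have : i + 1 ≠ L.m := by have := List.mem_range.1 hi; omega
          simp [wm1_let, n.mem_erase_iff, this]).trans e.1
      · simp [wm1_let, n.mem_erase_iff, h0]

end Pool.Agent.MP_d5eec5_gt.H77
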